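import Pool.Agent.H910R3.ISO.RE

/-!
# Relative to a random oracle all complete sets for `RE` (for `NEXP`) are m-honest-equivalent

Oracles, polynomial-time oracle algorithms, `FP`, many-one reductions relative to an oracle and the
measure `randomOracle` on the oracles (every bit is decided by an independent fair coin) are those of
`Pool.Agent.H628R3.RO.Defs` (`Oracle`, `Alg`, `IsFP`, `Red`, `randomOracle`); `RE` and `NEXP`
relative to an oracle (`IsRE`, `IsNEXP`) are defined in `Pool.Agent.H910R3.ISO.REDefs`.

The proof is the one for `NP` and `PSPACE` (see `Pool.Agent.Results.MP_8a92de_lc.RandomOracle`): if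
`A` is hard for `RE` and `B` is in `RE`, then so is the set `C` of all `(x, u₁, u₂)` such that
`x ∈ B` and `u₁` is in the range of a length doubling function `G` given by the oracle, or `u₂` is in
the range of `G`. A reduction of `C` to `A`, applied to `(x, G w, v)` with strings `w` and `v` of
random bits read from the oracle at positions that belong to `x`, gives a reduction of `B` to `A`
that is one-one and length-increasing at all but finitely many lengths.
-/

set_option autoImplicit false

namespace Pool.Agent.Results.MP_1a14d4_lc.RandomOracle

open MeasureTheory Pool.Agent.H628R3.RO Pool.Agent.H910R3.ISO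

/-- For almost every oracle `R`:

* every set `A` that is hard for `RE` relative to `R` under many-one reductions computable in
  polynomial time relative to `R` is hard for it under such reductions which are, in addition,
  one-one and length-increasing (in particular honest);
* the same for `NEXP` relative to `R`.

In particular any two complete sets for `RE` relative to `R` are m-honest-equivalent, and so are any
two complete sets for `NEXP` relative to `R`. -/
theorem result : ∀ᵐ R ∂randomOracle,
    (∀ A : Set (List Bool), (∀ B : Set (List Bool), IsRE R B → Red R B A) →
      ∀ B : Set (List Bool), IsRE R B →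
        ∃ F : List Bool → List Bool, IsFP R F ∧ Function.Injective F ∧
          (∀ x : List Bool, x.length < (F x).length) ∧ ∀ x, x ∈ B ↔ F x ∈ A) ∧
    (∀ A : Set (List Bool), (∀ B : Set (List Bool), IsNEXP R B → Red R B A) →
      ∀ B : Set (List Bool), IsNEXP R B →
        ∃ F : List Bool → List Bool, IsFP R F ∧ Function.Injective F ∧
          (∀ x : List Bool, x.length < (F x).length) ∧ ∀ x, x ∈ B ↔ F x ∈ A) :=
  final_re

end Pool.Agent.Results.MP_1a14d4_lc.RandomOracle
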